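import Pool.Agent.H81.D3.Targets

set_option autoImplicit false

namespace Pool.Agent.H38.D3

open MeasureTheory Set Pool.Agent.H83.G Pool.Agent.H81.D3

/-- the integers at distance at most `ρ` of `t` -/
noncomputable def In (ρ t : ℝ) : Finset ℤ := Finset.Icc ⌈t - ρ⌉ ⌊t + ρ⌋

theorem mem_In {ρ t : ℝ} {n : ℤ} (h : |t - n| ≤ ρ) : n ∈ In ρ t := by
  have h1 := abs_le.mp h
  refine Finset.mem_Icc.mpr ⟨Int.ceil_le.mpr (by linarith), Int.le_floor.mpr (by linarith)⟩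

theorem card_In {ρ : ℝ} (t : ℝ) (hρ : 1 ≤ ρ) : ((In ρ t).card : ℝ) ≤ 3 * ρ := by
  have h1 : (In ρ t).card = (⌊t + ρ⌋ + 1 - ⌈t - ρ⌉).toNat := Int.card_Icc _ _
  have h2 : (((⌊t + ρ⌋ + 1 - ⌈t - ρ⌉).toNat : ℤ) : ℝ) ≤ 3 * ρ := by
    rcases le_total 0 (⌊t + ρ⌋ + 1 - ⌈t - ρ⌉) with h | h
    · rw [Int.toNat_of_nonneg h]
      push_cast
      have h3 := Int.floor_le (t + ρ)
      have h4 := Int.le_ceil (t - ρ)
      linarith
    · rw [Int.toNat_of_nonpos h]
      push_cast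
      linarith
  rw [h1]
  exact_mod_cast h2

/-- the indices at distance at most `ρ` of `x` -/
noncomputable def Bx (ρ : ℝ) (x : Z 2) : Finset (Zi 2) :=
  In ρ x.1 ×ˢ (Fintype.piFinset (fun i => In ρ (x.2.1 i)) ×ˢ In ρ x.2.2)

theorem mem_Bx {ρ : ℝ} {x : Z 2} {l : Zi 2} (h : ‖x - zc l‖ ≤ ρ) : l ∈ Bx ρ x := by
  have h1 : ‖(x - zc l).1‖ ≤ ρ := (norm_fst_le _).trans h
  have h2 : ‖(x - zc l).2‖ ≤ ρ := (norm_snd_le _).trans h
  have h3 : ‖(x - zc l).2.1‖ ≤ ρ := (norm_fst_le _).trans h2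
  have h4 : ‖(x - zc l).2.2‖ ≤ ρ := (norm_snd_le _).trans h2
  refine Finset.mem_product.mpr ⟨mem_In ?_, Finset.mem_product.mpr
    ⟨Fintype.mem_piFinset.mpr fun i => mem_In ?_, mem_In ?_⟩⟩
  · rw [Real.norm_eq_abs] at h1
    exact h1
  · have h5 : ‖((x - zc l).2.1) i‖ ≤ ‖(x - zc l).2.1‖ := PiLp.norm_apply_le _ _
    have h6 := h5.trans h3
    rw [Real.norm_eq_abs] at h6
    exact h6
  · rw [Real.norm_eq_abs] at h4
    exact h4

theorem card_Bx {ρ : ℝ} (x : Z 2) (hρ : 1 ≤ ρ) : ((Bx ρ x).card : ℝ) ≤ 81 * ρ ^ 4 := by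
  unfold Bx
  rw [Finset.card_product, Finset.card_product, Fintype.card_piFinset, Fin.prod_univ_two]
  push_cast
  have h0 : (0 : ℝ) ≤ 3 * ρ := by linarith
  have h1 := card_In x.1 hρ
  have h2 := card_In (x.2.1 0) hρ
  have h3 := card_In (x.2.1 1) hρ
  have h4 := card_In x.2.2 hρ
  calc ((In ρ x.1).card : ℝ) * ((In ρ (x.2.1 0)).card * (In ρ (x.2.1 1)).card *
        (In ρ x.2.2).card)
      ≤ (3 * ρ) * ((3 * ρ) * (3 * ρ) * (3 * ρ)) := by gcongr
    _ = 81 * ρ ^ 4 := by ring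

theorem rpow_four {R δ : ℝ} (hR : 1 ≤ R) : (R ^ δ) ^ 4 = R ^ (4 * δ) := by
  rw [← Real.rpow_natCast, ← Real.rpow_mul (by linarith)]
  congr 1
  push_cast
  ring

theorem pf_NFI (hPUS : T_PUS) : T_NFI := by
  classical
  intro δ hδ hδ4
  obtain ⟨_, _, C, hC, hKs, _, _⟩ := hPUS 2
  refine ⟨81 * C + 81, by linarith, ?_, ?_⟩
  · intro R z hR
    have hR0 : 0 < R := by linarith
    have hρ : 1 ≤ R ^ δ := Real.one_le_rpow hR hδ.le
    have hs0 : 0 < sR R := inv_pos.mpr (Real.sqrt_pos.mpr hR0)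
    have hs1 : sR R ≤ 1 := inv_le_one_of_one_le₀ (by
      rw [← Real.sqrt_one]
      exact Real.sqrt_le_sqrt hR)
    refine ⟨(Ks 2 (sR R)).biUnion fun k => ((Bx (R ^ δ) (fc R δ k z)).filter
      fun l => ‖fc R δ k z - zc l‖ ≤ R ^ δ).image fun l => (k, l), ?_, ?_⟩
    · have h1 : (((Ks 2 (sR R)).biUnion fun k => ((Bx (R ^ δ) (fc R δ k z)).filter
          fun l => ‖fc R δ k z - zc l‖ ≤ R ^ δ).image fun l => (k, l)).card : ℝ) ≤
          ∑ k ∈ Ks 2 (sR R), (81 * (R ^ δ) ^ 4 : ℝ) := by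
        refine (Nat.cast_le.mpr Finset.card_biUnion_le).trans ?_
        rw [Nat.cast_sum]
        refine Finset.sum_le_sum fun k _ => ?_
        refine (Nat.cast_le.mpr Finset.card_image_le).trans ?_
        refine (Nat.cast_le.mpr (Finset.card_filter_le _ _)).trans ?_
        exact card_Bx _ hρ
      refine h1.trans ?_
      rw [Finset.sum_const, nsmul_eq_mul, rpow_four hR]
      have h2 : ((Ks 2 (sR R)).card : ℝ) ≤ C * R := by
        refine (hKs (sR R) hs0 hs1).trans (le_of_eq ?_)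
        unfold sR
        rw [inv_inv, Real.sq_sqrt hR0.le]
      have h3 : R ^ (4 * δ) ≤ R := by
        calc R ^ (4 * δ) ≤ R ^ (1 : ℝ) := Real.rpow_le_rpow_of_exponent_le hR (by linarith)
          _ = R := Real.rpow_one R
      have h4 : (0 : ℝ) ≤ R ^ (4 * δ) := Real.rpow_nonneg hR0.le _
      calc ((Ks 2 (sR R)).card : ℝ) * (81 * R ^ (4 * δ)) ≤ (C * R) * (81 * R) := by gcongr
        _ ≤ (81 * C + 81) * R ^ (2 : ℝ) := by
          rw [Real.rpow_two]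
          nlinarith [sq_nonneg R]
    · intro W
      constructor
      · intro hW
        obtain ⟨k, hk, hW⟩ := Finset.mem_biUnion.mp hW
        obtain ⟨l, hl, rfl⟩ := Finset.mem_image.mp hW
        exact ⟨hk, (Finset.mem_filter.mp hl).2⟩
      · rintro ⟨h1, h2⟩
        refine Finset.mem_biUnion.mpr ⟨W.1, h1, Finset.mem_image.mpr ⟨W.2,
          Finset.mem_filter.mpr ⟨mem_Bx h2, h2⟩, rfl⟩⟩
  · intro R z k S hR hS
    have hR0 : 0 < R := by linarith
    have hρ : 1 ≤ R ^ δ := Real.one_le_rpow hR hδ.le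
    have h1 : S.card ≤ (Bx (R ^ δ) (fc R δ k z)).card := by
      refine Finset.card_le_card_of_injOn (fun W => W.2) ?_ ?_
      · intro W hW
        have h2 := hS W hW
        refine mem_Bx ?_
        have h3 := h2.2
        unfold near at h3
        rw [h2.1] at h3
        exact h3
      · intro W hW W' hW' h
        have h2 := hS W hW
        have h3 := hS W' hW'
        exact Prod.ext (h2.1.trans h3.1.symm) h
    have h2 : (S.card : ℝ) ≤ 81 * (R ^ δ) ^ 4 := (Nat.cast_le.mpr h1).trans (card_Bx _ hρ)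
    rw [rpow_four hR] at h2
    have h4 : (0 : ℝ) ≤ R ^ (4 * δ) := Real.rpow_nonneg hR0.le _
    nlinarith

end Pool.Agent.H38.D3
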