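import Pool.Agent.H81.D3.Targets

set_option autoImplicit false

namespace Pool.Agent.H38.D3

open MeasureTheory Set Pool.Agent.H83.G Pool.Agent.H81.D3
open scoped ENNReal NNReal RealInnerProductSpace

/-- the piece of a rescaled function in a smaller cap, in the coordinates of this cap -/
theorem RS_comp (hLOA : T_LOA) (β : E 2 → ℂ) (L : ℕ) (κ₀ R A : ℝ) (G : Z 2 → ℂ)
    (hκ₀ : κ₀ ≤ 1 / 2) (hG : Cls L κ₀ R A G) (η ηk : E 2) (s t : ℝ) (hs : 0 < s) (ht : 0 < t) :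
    RS β ηk t (RS β η s G) = fun ζ => cp β (-(t⁻¹ • ηk)) t⁻¹ ζ *
      RS β (η + s • ηk) (s * t) G ζ := by
  obtain ⟨_, _, _, hcomp, _, hLd⟩ := hLOA 2
  funext ζ
  have hLc : Ld η s (Ld ηk t ζ) = Ld (η + s • ηk) (s * t) ζ := (hcomp η ηk s t ζ).2
  by_cases h0 : G (Ld (η + s • ηk) (s * t) ζ) = 0
  · unfold RS
    rw [hLc, h0]
    simp
  · have h1 := (hG.2.1 _ h0).1
    have h2 : (Ld (η + s • ηk) (s * t) ζ).1 = ζ.1 := rfl
    have h3 : ζ.1 ≠ 0 := by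
      rw [h2] at h1
      intro h
      rw [h] at h1
      linarith
    have h4 : cp β ηk t (Ld ηk t ζ) = cp β (η + s • ηk) (s * t) (Ld (η + s • ηk) (s * t) ζ) := by
      unfold cp
      rw [(hLd ηk t ζ h3).2.1, (hLd (η + s • ηk) (s * t) ζ h3).2.1, inv_smul_smul₀ ht.ne',
        inv_smul_smul₀ (mul_pos hs ht).ne']
    have h5 : cp β η s (Ld (η + s • ηk) (s * t) ζ) = cp β (-(t⁻¹ • ηk)) t⁻¹ ζ := by
      unfold cp
      have h6 : (Ld (η + s • ηk) (s * t) ζ).1⁻¹ • (Ld (η + s • ηk) (s * t) ζ).2.1 - η =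
          (s * t) • (ζ.1⁻¹ • ζ.2.1) + s • ηk := by
        have h7 := (hLd (η + s • ηk) (s * t) ζ h3).2.1
        rw [← h7]
        abel
      rw [h6]
      congr 1
      rw [smul_add, mul_smul, inv_smul_smul₀ hs.ne', inv_smul_smul₀ hs.ne', inv_inv,
        sub_neg_eq_add, smul_add, smul_inv_smul₀ ht.ne']
    unfold RS
    rw [hLc, h4, h5]
    push_cast
    ring

theorem le_of_sq_le_sq {x y : ℝ} (h : x ^ 2 ≤ y ^ 2) (hy : 0 ≤ y) : x ≤ y :=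
  le_of_not_gt fun h1 => by nlinarith

theorem rpow_aux (X : ℝ) (hX : 0 ≤ X) (δ : ℝ) :
    X ^ (-(δ * (((2 : ℕ) : ℝ) + 2))) = (X ^ (-δ)) ^ 4 := by
  rw [← Real.rpow_natCast (X ^ (-δ)) 4, ← Real.rpow_mul hX]
  congr 1
  push_cast
  ring

theorem aux1 {C X : ℝ} (h : 1 ≤ C) (hX : 0 ≤ X) : 1 ≤ 2 * C * (1 + X) := by nlinarith

theorem aux2 {w K R : ℝ} (hK : 1 ≤ K) (h : (w * K) ^ 2 ≤ R) : w ^ 2 ≤ R := by
  refine le_trans ?_ h
  rw [mul_pow]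
  have h1 : 1 ≤ K ^ 2 := one_le_pow₀ hK
  nlinarith [sq_nonneg w]

theorem aux3 {X Y : ℝ} (h1 : 1 ≤ X) (h2 : 1 ≤ Y) : 1 ≤ 5 * X * Y := by nlinarith

theorem aux4 {X Y n : ℝ} (h1 : 0 < X) (h2 : 1 ≤ Y) (hn : n ≤ 5) : X * n ≤ 5 * Y * X := by
  nlinarith [mul_le_mul_of_nonneg_left hn h1.le, mul_pos h1 (lt_of_lt_of_le one_pos h2)]

theorem aux5 {P C b : ℝ} (hC : C = P + 1) (hb : 0 ≤ b) : P * b ≤ C * b := by
  rw [hC]
  nlinarith

theorem aux6 {C P Q a : ℝ} (hC : 0 ≤ C) (h : a ≤ 2 * C * P) (hPQ : P ≤ Q) : a ≤ 2 * C * Q := by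
  nlinarith

theorem aux7 {C T : ℝ} (hC : 1 ≤ C) (hT : 0 ≤ T) : 2 * C * T ≤ (2 * C) ^ 2 * T := by
  have h3 : 2 * C ≤ (2 * C) ^ 2 := by nlinarith
  exact mul_le_mul_of_nonneg_right h3 hT

theorem aux8 {C X : ℝ} (hC : 0 ≤ C) (hX : 0 ≤ X) : 2 * C ≤ 2 * C * (1 + X) := by nlinarith

theorem aux9 {C X : ℝ} (hC : 0 ≤ C) (hX : 0 ≤ X) : 2 * C * X ≤ 2 * C * (1 + X) := by nlinarith

theorem sR_sq (K : ℕ) : sR ((K : ℝ) ^ 2) = (K : ℝ)⁻¹ := by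
  unfold sR
  rw [Real.sqrt_sq (Nat.cast_nonneg K)]

theorem pf_PAM (hWM : T_WM) (hRSE : T_RSE) (hCMP : T_CMP) (hSPK : T_SPK) (hPUB : T_PUB)
    (hLOA : T_LOA) (hLOI : T_LOI) (hWT1 : T_WT1) (hWT2 : T_WT2) (hSCH : T_SCH) (hCPS : T_CPS) :
    T_PAM := by
  intro L N' β δ hL hβ hδ hδ1
  refine ⟨N' + 5, fun N hN => ?_⟩
  obtain ⟨M, hM⟩ : ∃ M, N = N' + M := ⟨N - N', by omega⟩
  have hM5 : 2 + 3 ≤ M := by omega
  obtain ⟨CR, hCR1, hCR⟩ := hRSE L β hβ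
  obtain ⟨CM, hCM1, hCMa, hCMb, hCMc, _⟩ := hCMP
  obtain ⟨CS, hCS0, hCS⟩ := hSPK 2 L β hβ
  obtain ⟨Cβ, hCβ1, hCβ⟩ := hPUB 2 (N + 5) β hβ
  obtain ⟨CW, hCW⟩ := hWM 2 N (N + 5) 5 (by omega) (by norm_num)
  obtain ⟨C2, hC2, _, _⟩ := hWT2 2 M hM5
  obtain ⟨hw01, _, _, _, _, hwadd, _⟩ := hWT1 2 N'
  obtain ⟨_, _, _, _, hLo1, _⟩ := hLOA 2
  set C₁ : ℝ := Cβ ^ 2 * CW * C2 + 1 with hC₁
  have hC₁pos : 0 < C₁ := by positivity
  have hC₁1 : 1 ≤ C₁ := by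
    have : 0 ≤ Cβ ^ 2 * CW * C2 := by positivity
    linarith
  refine ⟨2 * C₁ * (1 + (CS * CR) ^ 2), aux1 hC₁1 (sq_nonneg _), ?_⟩
  intro R A a w K κ W G hw hK hwK hA ha hG hκ hW hal
  have hw0 : (0 : ℝ) < w := by exact_mod_cast hw
  have hK0 : (0 : ℝ) < K := by exact_mod_cast hK
  have hw1 : (1 : ℝ) ≤ w := by exact_mod_cast hw
  have hK1 : (1 : ℝ) ≤ K := by exact_mod_cast hK
  have hR0 : 0 < R := lt_of_lt_of_le (by positivity) hwK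
  set s : ℝ := (w : ℝ)⁻¹ with hs
  set t : ℝ := (K : ℝ)⁻¹ with ht
  have hs0 : 0 < s := inv_pos.mpr hw0
  have ht0 : 0 < t := inv_pos.mpr hK0
  have hs1 : s ≤ 1 := inv_le_one_of_one_le₀ hw1
  have ht1 : t ≤ 1 := inv_le_one_of_one_le₀ hK1
  set η : E 2 := ctr s κ with hη
  set ηk : E 2 := ctr t W.1 with hηk
  have hst : ((w * K : ℕ) : ℝ)⁻¹ = s * t := by
    rw [hs, ht]
    push_cast
    rw [mul_inv]
  have hη' : ctr ((w * K : ℕ) : ℝ)⁻¹ ((K : ℤ) • κ + W.1) = η + s • ηk :=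
    (hCMa w K κ W.1 0 hw hK).2
  have hηk5 : ‖ηk‖ ≤ 5 := (hCMb K W.1 0 0 hK hW).2.2.2.2
  -- the functions
  have hRs : 1 ≤ R * s ^ 2 := by
    have h1 : (w : ℝ) ^ 2 ≤ R := aux2 hK1 hwK
    rw [hs, inv_pow, ← div_eq_mul_inv, le_div_iff₀ (by positivity)]
    linarith
  have hRst : 1 ≤ R * (s * t) ^ 2 := by
    rw [hs, ht, ← mul_inv, inv_pow, ← div_eq_mul_inv, le_div_iff₀ (by positivity)]
    linarith
  have hst1 : s * t ≤ 1 := mul_le_one₀ hs1 ht0.le ht1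
  have hGw := hCR (1 / 4) R A s η G (by norm_num) (by norm_num) hA hs0 hs1 hRs hG
  set F : Z 2 → ℂ := Gc β (w * K) G ((K : ℤ) • κ + W.1) with hF
  have hFe : F = RS β (η + s • ηk) (s * t) G := by
    rw [hF]
    unfold Gc
    rw [hη', hst]
  have hFc := hCR (1 / 4) R A (s * t) (η + s • ηk) G (by norm_num) (by norm_num) hA
    (mul_pos hs0 ht0) hst1 hRst hG
  have hF2 : Cls L (1 / 4) (R * (s * t) ^ 2) (CR * A) F := by
    rw [hFe]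
    exact hFc.1
  have hGw' : Gc β w G κ = RS β η s G := rfl
  -- the identity
  have hTP : ∀ z, TP β ηk t (Gc β w G κ) z =
      TP β (-(t⁻¹ • ηk)) t⁻¹ F (Lo ηk t z) := by
    intro z
    have h1 := (hCR (1 / 4) (R * s ^ 2) (CR * A) t ηk (RS β η s G) (by norm_num) (by norm_num)
      (by positivity) ht0 ht1 (by
        have : R * s ^ 2 * t ^ 2 = R * (s * t) ^ 2 := by ring
        rw [this]
        exact hRst) hGw.1).2.1 z
    rw [hGw', ← h1, RS_comp hLOA β L (1 / 4) R A G (by norm_num) hG η ηk s t hs0 ht0, ← hFe]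
    rfl
  -- the bound of the function
  have hFb : ∀ x, ‖TF F x‖ ≤ CS * CR * (A * R / ((w : ℝ) * K) ^ 2) := by
    intro x
    have h1 := (hCS (1 / 4) (R * (s * t) ^ 2) (CR * A) F (by norm_num) (by norm_num) hRst
      (by positivity) hF2).2 x
    have h2 : (R * (s * t) ^ 2) ^ (((2 : ℕ) : ℝ) / 2) = R * (s * t) ^ 2 := by
      rw [show (((2 : ℕ) : ℝ) / 2) = 1 by norm_num, Real.rpow_one]
    rw [h2] at h1
    refine h1.trans (le_of_eq ?_)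
    rw [hs, ht]
    field_simp
  -- the amplitude
  set c : ℝ := ((K : ℝ) ^ 2) ^ (-δ) with hc
  have hK2 : (1 : ℝ) ≤ (K : ℝ) ^ 2 := one_le_pow₀ hK1
  have hc0 : 0 < c := Real.rpow_pos_of_pos (by positivity) _
  have hcr : (((K : ℝ) ^ 2) ^ δ)⁻¹ = c := by
    rw [hc, Real.rpow_neg (by positivity)]
  have hal2 : ENNReal.ofReal (a ^ 2) ≤ al2 N β ((K : ℝ) ^ 2) δ (Gc β w G κ) W := by
    apply ENNReal.ofReal_le_of_le_toReal
    unfold al at hal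
    have h1 := pow_le_pow_left₀ ha.le hal 2
    rwa [Real.sq_sqrt ENNReal.toReal_nonneg] at h1
  have hX : al2 N β ((K : ℝ) ^ 2) δ (Gc β w G κ) W = ENNReal.ofReal (c ^ 4) *
      ∫⁻ y, ‖TP β (-(t⁻¹ • ηk)) t⁻¹ F y‖ₑ ^ 2 * ENNReal.ofReal (wt N (c • y - zc W.2)) := by
    unfold al2
    rw [sR_sq]
    have h1 : ∀ z : Z 2, fc ((K : ℝ) ^ 2) δ W.1 z = c • Lo ηk t z := by
      intro z
      unfold fc
      rw [sR_sq]
    have h2 : ∫⁻ z, ‖TP β (ctr (K : ℝ)⁻¹ W.1) (K : ℝ)⁻¹ (Gc β w G κ) z‖ₑ ^ 2 *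
        ENNReal.ofReal (wt N (fc ((K : ℝ) ^ 2) δ W.1 z - zc W.2)) =
        ∫⁻ z, (fun y => ‖TP β (-(t⁻¹ • ηk)) t⁻¹ F y‖ₑ ^ 2 *
          ENNReal.ofReal (wt N (c • y - zc W.2))) (Lo ηk t z) := by
      refine lintegral_congr fun z => ?_
      rw [h1 z]
      exact congrArg (fun v : ℂ => ‖v‖ₑ ^ 2 * ENNReal.ofReal (wt N (c • Lo ηk t z - zc W.2)))
        (hTP z)
    rw [h2, (hLOI 2 ηk t ht0).1 (fun y => ‖TP β (-(t⁻¹ • ηk)) t⁻¹ F y‖ₑ ^ 2 *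
      ENNReal.ofReal (wt N (c • y - zc W.2))), ← mul_assoc, ← ENNReal.ofReal_mul (by positivity)]
    congr 2
    have h3 : ((K : ℝ) ^ 2) ^ (-(δ * (((2 : ℕ) : ℝ) + 2))) = c ^ 4 :=
      rpow_aux _ (by positivity) _
    rw [h3, ← ht, mul_assoc, ← mul_pow, mul_inv_cancel₀ ht0.ne', one_pow, mul_one]
  have hFsup : ∀ ζ, F ζ ≠ 0 → 1 / 4 ≤ ζ.1 ∧ ζ.1 ≤ 8 := by
    intro ζ hζ
    have h1 := hF2.2.1 ζ hζ
    exact ⟨by linarith [h1.1], by linarith [h1.2.1]⟩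
  have hβφ : ∀ (y : Z 2), TP β (-(t⁻¹ • ηk)) t⁻¹ F y =
      (Cβ : ℂ) * TP (fun x => ((Cβ⁻¹ : ℝ) : ℂ) * β x) (-(t⁻¹ • ηk)) t⁻¹ F y := by
    intro y
    unfold TP TF
    rw [← integral_const_mul]
    refine integral_congr_ae (Filter.Eventually.of_forall fun ζ => ?_)
    unfold cp
    have h1 : (Cβ : ℂ) ≠ 0 := Complex.ofReal_ne_zero.mpr (lt_of_lt_of_le one_pos hCβ1).ne'
    push_cast
    field_simp
  have hWMa := hCW _ hCβ 0 (-(t⁻¹ • ηk)) 1 t⁻¹ (((K : ℝ) ^ 2) ^ δ) (zc W.2) F one_pos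
    (inv_pos.mpr ht0) (Real.one_le_rpow hK2 hδ.le) (by
      have h1 : 1 ≤ t⁻¹ := (one_le_inv₀ ht0).mpr ht1
      have h2 := Real.one_le_rpow hK2 hδ.le
      exact aux3 h2 h1) (by
      rw [sub_zero, norm_neg, norm_smul, Real.norm_eq_abs, abs_of_pos (inv_pos.mpr ht0)]
      exact aux4 (inv_pos.mpr ht0) (Real.one_le_rpow hK2 hδ.le) hηk5)
    hF2.1 hFsup
  rw [hcr] at hWMa
  have hWMb : ∫⁻ y, ‖TP β (-(t⁻¹ • ηk)) t⁻¹ F y‖ₑ ^ 2 * ENNReal.ofReal (wt N (c • y - zc W.2)) ≤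
      ENNReal.ofReal (Cβ ^ 2 * CW) *
        ∫⁻ y, ‖TF F y‖ₑ ^ 2 * ENNReal.ofReal (wt N (c • y - zc W.2)) := by
    have h1 : ∀ y, ‖TP β (-(t⁻¹ • ηk)) t⁻¹ F y‖ₑ ^ 2 * ENNReal.ofReal (wt N (c • y - zc W.2)) =
        ENNReal.ofReal (Cβ ^ 2) *
          (‖TP (fun x => ((Cβ⁻¹ : ℝ) : ℂ) * β x) (-(t⁻¹ • ηk)) t⁻¹ F y‖ₑ ^ 2 *
            ENNReal.ofReal (wt N (c • Lo 0 1 y - zc W.2))) := by
      intro y
      rw [hβφ y, enorm_mul, mul_pow, (hLo1 y).1, mul_assoc]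
      congr 1
      have h2 : ‖(Cβ : ℂ)‖ₑ = ENNReal.ofReal Cβ := by
        rw [← ofReal_norm, Complex.norm_real, Real.norm_eq_abs,
          abs_of_pos (by linarith)]
      rw [h2, ENNReal.ofReal_pow (by linarith)]
    rw [lintegral_congr h1, lintegral_const_mul' _ _ ENNReal.ofReal_ne_top]
    have h3 : ∀ y : Z 2, ‖TF F y‖ₑ ^ 2 * ENNReal.ofReal (wt N (c • Lo 0 1 y - zc W.2)) =
        ‖TF F y‖ₑ ^ 2 * ENNReal.ofReal (wt N (c • y - zc W.2)) := by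
      intro y
      rw [(hLo1 y).1]
    rw [lintegral_congr h3] at hWMa
    rw [ENNReal.ofReal_mul (by positivity), ENNReal.ofReal_coe_nnreal, mul_assoc]
    exact mul_le_mul_right hWMa _
  -- a large point
  set b : ℝ := a ^ 2 / (2 * C₁) with hb
  have hb0 : 0 < b := by positivity
  obtain ⟨x, hx⟩ : ∃ x : Z 2, b ≤ ‖TF F x‖ ^ 2 * wt N' (c • x - zc W.2) := by
    by_contra hcon
    push Not at hcon
    have h1 : ∫⁻ y, ‖TF F y‖ₑ ^ 2 * ENNReal.ofReal (wt N (c • y - zc W.2)) ≤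
        ENNReal.ofReal b * (C2 * ENNReal.ofReal ((c⁻¹) ^ (2 + 2))) := by
      calc ∫⁻ y, ‖TF F y‖ₑ ^ 2 * ENNReal.ofReal (wt N (c • y - zc W.2))
          ≤ ∫⁻ y, ENNReal.ofReal b * ENNReal.ofReal (wt M (c • y - zc W.2)) := by
            refine lintegral_mono fun y => ?_
            have h2 : wt N (c • y - zc W.2) =
                wt N' (c • y - zc W.2) * wt M (c • y - zc W.2) := by
              rw [hM]
              exact hwadd _ M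
            have h3 : 0 ≤ wt N' (c • y - zc W.2) := (hw01 _).1.le
            rw [h2, ENNReal.ofReal_mul h3, ← mul_assoc]
            refine mul_le_mul_left ?_ _
            rw [← ofReal_norm, ← ENNReal.ofReal_pow (norm_nonneg _),
              ← ENNReal.ofReal_mul (by positivity)]
            exact ENNReal.ofReal_le_ofReal (hcon y).le
        _ = ENNReal.ofReal b * ∫⁻ y, ENNReal.ofReal (wt M (c • y - zc W.2)) :=
            lintegral_const_mul' _ _ ENNReal.ofReal_ne_top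
        _ ≤ _ := mul_le_mul_right (hC2 c (zc W.2) hc0) _
    have h2 : al2 N β ((K : ℝ) ^ 2) δ (Gc β w G κ) W ≤
        ENNReal.ofReal (c ^ 4) * (ENNReal.ofReal (Cβ ^ 2 * CW) *
          (ENNReal.ofReal b * (C2 * ENNReal.ofReal ((c⁻¹) ^ (2 + 2))))) := by
      rw [hX]
      exact mul_le_mul_right (hWMb.trans (mul_le_mul_right h1 _)) _
    have h3 : ENNReal.ofReal (c ^ 4) * (ENNReal.ofReal (Cβ ^ 2 * CW) *
          (ENNReal.ofReal b * (C2 * ENNReal.ofReal ((c⁻¹) ^ (2 + 2))))) =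
        ENNReal.ofReal (Cβ ^ 2 * CW * C2 * b) := by
      rw [← ENNReal.ofReal_coe_nnreal (p := C2), ← ENNReal.ofReal_mul (by positivity),
        ← ENNReal.ofReal_mul (by positivity), ← ENNReal.ofReal_mul (by positivity),
        ← ENNReal.ofReal_mul (by positivity)]
      congr 1
      have h4 : c ^ 4 * (c⁻¹) ^ (2 + 2) = 1 := by
        rw [← mul_pow, mul_inv_cancel₀ hc0.ne', one_pow]
      calc c ^ 4 * (Cβ ^ 2 * CW * (b * (C2 * (c⁻¹) ^ (2 + 2)))) =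
          (c ^ 4 * (c⁻¹) ^ (2 + 2)) * (Cβ ^ 2 * CW * C2 * b) := by ring
        _ = Cβ ^ 2 * CW * C2 * b := by rw [h4, one_mul]
    rw [h3] at h2
    have h5 := hal2.trans h2
    have h6 : Cβ ^ 2 * CW * C2 * b < a ^ 2 := by
      have h7 : Cβ ^ 2 * CW * C2 * b ≤ C₁ * b := aux5 hC₁ hb0.le
      have h8 : C₁ * b = a ^ 2 / 2 := by
        rw [hb]
        field_simp
      have h9 : 0 < a ^ 2 := by positivity
      linarith
    exact absurd h5 (not_le.mpr ((ENNReal.ofReal_lt_ofReal_iff (by positivity)).mpr h6))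
  have hwx := hw01 (c • x - zc W.2)
  have hTF2 : a ^ 2 ≤ 2 * C₁ * (‖TF F x‖ ^ 2 * wt N' (c • x - zc W.2)) := by
    rw [hb, div_le_iff₀ (by positivity)] at hx
    linarith
  have hTF3 : a ^ 2 ≤ 2 * C₁ * ‖TF F x‖ ^ 2 := by
    have : ‖TF F x‖ ^ 2 * wt N' (c • x - zc W.2) ≤ ‖TF F x‖ ^ 2 :=
      mul_le_of_le_one_right (by positivity) hwx.2
    exact aux6 hC₁pos.le hTF2 this
  have hne : TF F x ≠ 0 := by
    intro h
    rw [h, norm_zero] at hTF3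
    have : 0 < a ^ 2 := by positivity
    simp only [ne_eq, OfNat.ofNat_ne_zero, not_false_eq_true, zero_pow, mul_zero] at hTF3
    linarith
  have hwK1 : 1 ≤ w * K := Nat.mul_pos hw hK
  have hR1 : 1 ≤ R := by
    refine le_trans ?_ hwK
    exact one_le_pow₀ (one_le_mul_of_one_le_of_one_le hw1 hK1)
  refine ⟨(hCMc L β R A G (w * K) _ x hβ hR1 hA hwK1 hG hne).1, x, ?_, ?_⟩
  · have h1 : a ^ 2 ≤ (2 * C₁ * ‖TF F x‖) ^ 2 := by
      refine hTF3.trans ?_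
      have h2 : 2 * C₁ * ‖TF F x‖ ^ 2 ≤ (2 * C₁) ^ 2 * ‖TF F x‖ ^ 2 := aux7 hC₁1 (by positivity)
      refine h2.trans (le_of_eq ?_)
      ring
    have h2 : a ≤ 2 * C₁ * ‖TF F x‖ := le_of_sq_le_sq h1 (by positivity)
    refine h2.trans ?_
    exact mul_le_mul_of_nonneg_right (aux8 hC₁pos.le (sq_nonneg _)) (norm_nonneg _)
  · have h1 : wt N' (c • x - zc W.2) = ((1 + ‖c • x - zc W.2‖) ^ N')⁻¹ := rfl
    have h2 : 0 < (1 + ‖c • x - zc W.2‖) ^ N' := by positivity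
    rw [h1] at hTF2
    have h3 : (1 + ‖c • x - zc W.2‖) ^ N' * a ^ 2 ≤ 2 * C₁ * ‖TF F x‖ ^ 2 := by
      have h4 := mul_le_mul_of_nonneg_left hTF2 h2.le
      have h5 : (1 + ‖c • x - zc W.2‖) ^ N' *
          (2 * C₁ * (‖TF F x‖ ^ 2 * ((1 + ‖c • x - zc W.2‖) ^ N')⁻¹)) =
          2 * C₁ * ‖TF F x‖ ^ 2 := by
        field_simp
      rwa [h5] at h4
    have h6 : ‖TF F x‖ ^ 2 ≤ (CS * CR * (A * R / ((w : ℝ) * K) ^ 2)) ^ 2 :=
      pow_le_pow_left₀ (norm_nonneg _) (hFb x) 2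
    have h7 : (1 + ‖c • x - zc W.2‖) ^ N' ≤
        2 * C₁ * (CS * CR * (A * R / ((w : ℝ) * K) ^ 2)) ^ 2 / a ^ 2 := by
      rw [le_div_iff₀ (by positivity)]
      refine h3.trans ?_
      exact mul_le_mul_of_nonneg_left h6 (by positivity)
    refine h7.trans ?_
    have h8 : 2 * C₁ * (CS * CR * (A * R / ((w : ℝ) * K) ^ 2)) ^ 2 / a ^ 2 =
        2 * C₁ * (CS * CR) ^ 2 * (A * R / (((w : ℝ) * K) ^ 2 * a)) ^ 2 := by
      field_simp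
    rw [h8]
    exact mul_le_mul_of_nonneg_right (aux9 hC₁pos.le (sq_nonneg _)) (by positivity)

end Pool.Agent.H38.D3
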